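import Mathlib
import Pool.Agent.Work.MP_24a6f7_nt.Assemble

/-!
# 2-near perfect numbers of the form `2 ^ k * p ^ m` with `m ≥ 3`

We classify them completely: they exist only for `m = 3`, and for `m = 3` they are exactly the
numbers `2 ^ k * p ^ 3` with `p = 2 ^ (k + 1) - 1` a Mersenne prime (the omitted divisors are then
`p` and `p ^ 2`).  Consequently the finiteness assertion of the question holds if and only if there
are only finitely many Mersenne primes.
-/

namespace Pool.Agent.Results.MP_24a6f7_nt.Classification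

open Finset

/-- A positive integer `n` is 2-near perfect if there are two distinct divisors `d₁ ≠ d₂` of `n`
with `σ(n) = 2 n + d₁ + d₂`, where `σ(n)` is the sum of the divisors of `n`. -/
def TwoNearPerfect (n : ℕ) : Prop :=
  0 < n ∧ ∃ d₁ d₂ : ℕ, d₁ ∣ n ∧ d₂ ∣ n ∧ d₁ ≠ d₂ ∧ ∑ d ∈ n.divisors, d = 2 * n + d₁ + d₂

/-- The 2-near perfect numbers of the form `2 ^ k * p ^ m` with `k ≥ 1` and `p` an odd prime. -/
def NearPerfectWithExponent (m : ℕ) : Set ℕ :=
  {n : ℕ | TwoNearPerfect n ∧ ∃ k p : ℕ, 1 ≤ k ∧ p.Prime ∧ p ≠ 2 ∧ n = 2 ^ k * p ^ m}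

lemma sum_divisors_two_pow_mul (k m p : ℕ) (hp : p.Prime) (hp2 : p ≠ 2) :
    ∑ d ∈ (2 ^ k * p ^ m).divisors, d
      = (∑ i ∈ range (k + 1), 2 ^ i) * ∑ i ∈ range (m + 1), p ^ i := by
  have hcop : Nat.Coprime (2 ^ k) (p ^ m) :=
    Nat.Coprime.pow _ _ ((Nat.coprime_primes Nat.prime_two hp).2 hp2.symm)
  rw [Nat.Coprime.sum_divisors_mul hcop, Nat.sum_divisors_prime_pow Nat.prime_two,
    Nat.sum_divisors_prime_pow hp]

lemma sum_two_pow (k : ℕ) : ((∑ i ∈ range (k + 1), 2 ^ i : ℕ) : ℤ) = 2 ^ (k + 1) - 1 := by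
  have := mul_geom_sum (2 : ℤ) (k + 1)
  push_cast
  linarith

theorem classification (m k p : ℕ) (hm : 3 ≤ m) (hk : 1 ≤ k) (hp : p.Prime) (hp2 : p ≠ 2) :
    TwoNearPerfect (2 ^ k * p ^ m) ↔ m = 3 ∧ p = 2 ^ (k + 1) - 1 := by
  have hp3 : 3 ≤ p := by
    have := hp.two_le
    omega
  have hpodd : p % 2 = 1 := hp.eq_two_or_odd.resolve_left hp2
  obtain ⟨n, rfl⟩ : ∃ n, m = n + 3 := ⟨m - 3, by omega⟩
  have hsig := sum_divisors_two_pow_mul k (n + 3) p hp hp2
  have hsigZ : ((∑ d ∈ (2 ^ k * p ^ (n + 3)).divisors, d : ℕ) : ℤ)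
      = ((2 : ℤ) ^ (k + 1) - 1) * (∑ i ∈ range (n + 3), (p : ℤ) ^ i + (p : ℤ) ^ (n + 3)) := by
    rw [hsig, Nat.cast_mul, sum_two_pow, sum_range_succ]
    push_cast
    ring
  have hone : (1 : ℕ) ≤ 2 ^ (k + 1) := Nat.one_le_two_pow
  constructor
  · rintro ⟨_, d₁, d₂, h1, h2, hne, hsum⟩
    -- the shape of the divisors
    have shape : ∀ d, d ∣ 2 ^ k * p ^ (n + 3) → ∃ a b, a ≤ k ∧ b ≤ n + 3 ∧ d = 2 ^ a * p ^ b := by
      intro d hd
      obtain ⟨x, y, hx, hy, rfl⟩ := (Nat.dvd_mul).1 hd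
      obtain ⟨a, ha, rfl⟩ := (Nat.dvd_prime_pow Nat.prime_two).1 hx
      obtain ⟨b, hb, rfl⟩ := (Nat.dvd_prime_pow hp).1 hy
      exact ⟨a, b, ha, hb, rfl⟩
    obtain ⟨a, b, ha, hb, rfl⟩ := shape d₁ h1
    obtain ⟨c, d, hc, hd, rfl⟩ := shape d₂ h2
    have hZ : ((2 : ℤ) ^ (k + 1) - 1) * (∑ i ∈ range (n + 3), (p : ℤ) ^ i + (p : ℤ) ^ (n + 3))
        = 2 * (2 ^ k * (p : ℤ) ^ (n + 3)) + 2 ^ a * (p : ℤ) ^ b + 2 ^ c * (p : ℤ) ^ d := by
      rw [← hsigZ, hsum]
      push_cast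
      ring
    have hE : ((2 : ℤ) ^ (k + 1) - 1) * (∑ i ∈ range (n + 3), (p : ℤ) ^ i)
        = (p : ℤ) ^ (n + 3) + 2 ^ a * (p : ℤ) ^ b + 2 ^ c * (p : ℤ) ^ d := by
      have : (2 : ℤ) ^ (k + 1) = 2 * 2 ^ k := by ring
      rw [this] at hZ ⊢
      linarith
    have key : n = 0 ∧ (p : ℤ) + 1 = 2 ^ (k + 1) := by
      rcases Nat.lt_trichotomy b d with hbd | hbd | hbd
      · exact Pool.Agent.Work.MP_24a6f7_nt.core n k p a b c d hp3 hpodd ha hc hbd.le hd
          (fun h => absurd h hbd.ne) hE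
      · subst hbd
        rcases Nat.lt_trichotomy a c with hac | hac | hac
        · exact Pool.Agent.Work.MP_24a6f7_nt.core n k p a b c b hp3 hpodd ha hc le_rfl hd
            (fun _ => hac) hE
        · subst hac
          exact absurd rfl hne
        · exact Pool.Agent.Work.MP_24a6f7_nt.core n k p c b a b hp3 hpodd hc ha le_rfl hd
            (fun _ => hac) (by rw [hE]; ring)
      · exact Pool.Agent.Work.MP_24a6f7_nt.core n k p c d a b hp3 hpodd hc ha hbd.le hb
          (fun h => absurd h hbd.ne) (by rw [hE]; ring)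
    obtain ⟨hn, hpk⟩ := key
    refine ⟨by omega, ?_⟩
    have : p + 1 = 2 ^ (k + 1) := by exact_mod_cast hpk
    omega
  · rintro ⟨hm3, hpk⟩
    have hn : n = 0 := by omega
    subst hn
    have hpk' : p + 1 = 2 ^ (k + 1) := by omega
    have hpkZ : (2 : ℤ) ^ (k + 1) = p + 1 := by exact_mod_cast hpk'.symm
    refine ⟨by positivity, p, p ^ 2, ?_, ?_, ?_, ?_⟩
    · exact Dvd.dvd.mul_left (dvd_pow_self p (by norm_num)) _
    · exact Dvd.dvd.mul_left (pow_dvd_pow p (by norm_num)) _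
    · intro h
      have : p < p ^ 2 := by nlinarith
      omega
    · have h1 : ((∑ d ∈ (2 ^ k * p ^ (0 + 3)).divisors, d : ℕ) : ℤ)
          = ((2 * (2 ^ k * p ^ (0 + 3)) + p + p ^ 2 : ℕ) : ℤ) := by
        rw [hsigZ, hpkZ]
        have h2 : (2 : ℤ) * (2 ^ k * (p : ℤ) ^ 3) = (p + 1) * p ^ 3 := by
          rw [← hpkZ]; ring
        simp only [Finset.sum_range_succ, Finset.sum_range_zero]
        push_cast
        rw [h2]
        ring
      exact_mod_cast h1

theorem finite_iff :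
    (∀ m : ℕ, 3 ≤ m → (NearPerfectWithExponent m).Finite) ↔
      {q : ℕ | q.Prime ∧ ∃ j : ℕ, q = 2 ^ j - 1}.Finite := by
  constructor
  · intro h
    have h3 := h 3 le_rfl
    -- map n = 2^k p^3 to p : use that q ↦ ((q+1)/2) * q^3 is injective on Mersenne primes
    refine Set.Finite.subset ((h3.preimage (f := fun q : ℕ => (q + 1) / 2 * q ^ 3) ?_).union
      (Set.finite_singleton 2)) ?_
    · -- injectivity on the preimage: the function is strictly monotone
      apply Set.injOn_of_injective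
      have : StrictMono (fun q : ℕ => (q + 1) / 2 * q ^ 3) := by
        apply strictMono_nat_of_lt_succ
        intro q
        rcases Nat.eq_zero_or_pos q with rfl | hq
        · norm_num
        · have h1 : (q + 1) / 2 ≤ (q + 1 + 1) / 2 := by omega
          have h2 : q ^ 3 < (q + 1) ^ 3 := Nat.pow_lt_pow_left (by omega) (by norm_num)
          have h3 : 0 < (q + 1 + 1) / 2 := by omega
          calc (q + 1) / 2 * q ^ 3 ≤ (q + 1 + 1) / 2 * q ^ 3 := Nat.mul_le_mul_right _ h1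
            _ < (q + 1 + 1) / 2 * (q + 1) ^ 3 := Nat.mul_lt_mul_of_pos_left h2 h3
      exact this.injective
    · rintro q ⟨hq, j, hj⟩
      rcases eq_or_ne q 2 with h2 | h2
      · right; exact h2
      · left
        have hq2 := hq.two_le
        have hj2 : 2 ≤ j := by
          by_contra hcon
          have : j = 0 ∨ j = 1 := by omega
          rcases this with rfl | rfl <;> simp at hj <;> omega
        obtain ⟨k, rfl⟩ : ∃ k, j = k + 1 := ⟨j - 1, by omega⟩
        have hk : 1 ≤ k := by omega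
        have hpow : 1 ≤ 2 ^ (k + 1) := Nat.one_le_two_pow
        have hhalf : (q + 1) / 2 = 2 ^ k := by
          have : q + 1 = 2 * 2 ^ k := by rw [← pow_succ']; omega
          omega
        show (q + 1) / 2 * q ^ 3 ∈ NearPerfectWithExponent 3
        rw [hhalf]
        exact ⟨(classification 3 k q le_rfl hk hq h2).2 ⟨rfl, hj⟩, k, q, hk, hq, h2, rfl⟩
  · intro h m hm
    refine Set.Finite.subset (h.image (fun q : ℕ => (q + 1) / 2 * q ^ 3)) ?_
    rintro n ⟨hn, k, p, hk, hp, hp2, rfl⟩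
    obtain ⟨hm3, hpk⟩ := (classification m k p hm hk hp hp2).1 hn
    subst hm3
    refine ⟨p, ⟨hp, k + 1, hpk⟩, ?_⟩
    have hpow : 1 ≤ 2 ^ (k + 1) := Nat.one_le_two_pow
    have hhalf : (p + 1) / 2 = 2 ^ k := by
      have : p + 1 = 2 * 2 ^ k := by rw [← pow_succ']; omega
      omega
    show (p + 1) / 2 * p ^ 3 = 2 ^ k * p ^ 3
    rw [hhalf]

/-- **Main result.**  For every `m ≥ 3`, `k ≥ 1` and every odd prime `p`, the number
`2 ^ k * p ^ m` is 2-near perfect if and only if `m = 3` and `p = 2 ^ (k + 1) - 1`.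
Hence the assertion of the question (finiteness for every `m ≥ 3`) is equivalent to the
finiteness of the set of Mersenne primes. -/
theorem result :
    (∀ m k p : ℕ, 3 ≤ m → 1 ≤ k → p.Prime → p ≠ 2 →
      (TwoNearPerfect (2 ^ k * p ^ m) ↔ m = 3 ∧ p = 2 ^ (k + 1) - 1)) ∧
    ((∀ m : ℕ, 3 ≤ m → (NearPerfectWithExponent m).Finite) ↔
      {q : ℕ | q.Prime ∧ ∃ j : ℕ, q = 2 ^ j - 1}.Finite) :=
  ⟨fun m k p hm hk hp hp2 => classification m k p hm hk hp hp2, finite_iff⟩

end Pool.Agent.Results.MP_24a6f7_nt.Classification
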